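import Pool.Agent.X264.OAO.Spaces

/-!
# The join of orthogonally additive maps can change in the Dedekind completion

There are Riesz spaces `E`, `F`, `F` Archimedean, and orthogonally additive maps `S, T : E → F` whose
join `S ∨ T` exists in `𝒪(E, F)`, such that for some `x` all the elements `S u + T v`, `x = u ⊔ v`,
are below an element `w` of `F` with `w < (S ∨ T) x`. So `R_1 x ≤ w < (S ∨ T) x` in every
Dedekind completion of `F`.
-/

set_option autoImplicit false

namespace Pool.Agent.Results.MP_78978c_an.JoinLarger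

open Pool.Agent.X264.OAO

/-- The set `{S u + T v : x = u ⊔ v}`, where `x = u ⊔ v` means that `x = u + v` and
`|u| ∧ |v| = 0`. -/
def fragmentSums {E F : Type*} [AddCommGroup E] [Lattice E] [AddCommGroup F] (S T : E → F)
    (x : E) : Set F :=
  {y | ∃ u v : E, x = u + v ∧ |u| ⊓ |v| = 0 ∧ y = S u + T v}

/-- A Dedekind completion of the Riesz space `F`: a Dedekind complete Riesz space `G` with an
injective Riesz homomorphism `J : F → G` whose range is order dense. -/
structure IsDedekindCompletion {F G : Type*} [AddCommGroup F] [Module ℝ F] [Lattice F]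
    [AddCommGroup G] [Module ℝ G] [Lattice G] (J : F →ₗ[ℝ] G) : Prop where
  complete : ∀ A : Set G, A.Nonempty → BddAbove A → ∃ s, IsLUB A s
  injective : Function.Injective J
  map_sup : ∀ x y, J (x ⊔ y) = J x ⊔ J y
  orderDense : ∀ g : G, 0 < g → ∃ f : F, 0 < J f ∧ J f ≤ g

/-- **The negative answer.** -/
theorem result : ∃ (E F : Type)
    -- `E` is a Riesz space
    (_ : AddCommGroup E) (_ : Module ℝ E) (_ : Lattice E) (_ : IsOrderedAddMonoid E)
    (_ : PosSMulMono ℝ E)
    -- `F` is a Riesz space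
    (_ : AddCommGroup F) (_ : Module ℝ F) (_ : Lattice F) (_ : IsOrderedAddMonoid F)
    (_ : PosSMulMono ℝ F),
    -- `F` is Archimedean
    (∀ f g : F, (∀ n : ℕ, n • f ≤ g) → f ≤ 0) ∧
    ∃ S T P : E → F, IsOA S ∧ IsOA T ∧ IsJoin S T P ∧ ∃ x : E,
      (∃ w : F, w < P x ∧ ∀ y ∈ fragmentSums S T x, y ≤ w) ∧
      ∀ (G : Type) [AddCommGroup G] [Module ℝ G] [Lattice G] [IsOrderedAddMonoid G]
        [PosSMulMono ℝ G] (J : F →ₗ[ℝ] G), IsDedekindCompletion J →
        ∃ R : G, IsLUB (J '' fragmentSums S T x) R ∧ R < J (P x) := by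
  have main : ∃ w : FF, w < opP (ind Set.univ) ∧
      ∀ y ∈ fragmentSums opS (fun _ => 0) (ind Set.univ), y ≤ w := by
    have hw : (fun ω : Om => ω.P Set.univ - 1) ∈ VF :=
      ⟨0, fun ω ω' h => by
        show ω.P _ - 1 = ω'.P _ - 1
        rw [(h _ (per_univ 0)).1]⟩
    refine ⟨⟨_, hw⟩, lt_of_le_of_ne ?_ ?_, ?_⟩
    · intro ω
      show ω.P Set.univ - 1 ≤ ω.P (lev (ind Set.univ))
      rw [lev_ind (per_univ 0)]
      linarith
    · intro h
      let ω : Om := ⟨[(0, 2)], [], [], by simp⟩
      have h1 : ω.P Set.univ - 1 = ω.P (lev (ind Set.univ)) := congrFun (congrArg Subtype.val h) ω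
      rw [lev_ind (per_univ 0)] at h1
      linarith
    · rintro _ ⟨u, v, -, -, rfl⟩
      intro ω
      show (opS u).1 ω + 0 ≤ ω.P Set.univ - 1
      rw [opS_apply, add_zero]
      have h1 := one_le ω (lev u)
      have h2 := ω.P_union (disjoint_compl_right (a := lev u))
      rw [Set.union_compl_self] at h2
      linarith
  obtain ⟨w, hw1, hw2⟩ := main
  refine ⟨EE, FF, inferInstance, inferInstance, inferInstance, inferInstance, inferInstance,
    inferInstance, inferInstance, inferInstance, inferInstance, inferInstance, arch_FF,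
    opS, fun _ => 0, opP, opS_oa, zero_oa, join, ind Set.univ, ⟨w, hw1, hw2⟩, ?_⟩
  intro G _ _ _ _ _ J hJ
  have hmono : Monotone J := by
    intro a b hab
    have := hJ.map_sup a b
    rw [sup_eq_right.2 hab] at this
    rw [this]
    exact le_sup_left
  have hstrict : J w < J (opP (ind Set.univ)) :=
    lt_of_le_of_ne (hmono hw1.le) fun h => hw1.ne (hJ.injective h)
  have hub : J w ∈ upperBounds (J '' fragmentSums opS (fun _ => 0) (ind Set.univ)) := by
    rintro _ ⟨y, hy, rfl⟩
    exact hmono (hw2 y hy)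
  have hne : (J '' fragmentSums opS (fun _ => 0) (ind Set.univ)).Nonempty := by
    refine ⟨_, _, ⟨ind Set.univ, 0, by rw [add_zero], ?_, rfl⟩, rfl⟩
    rw [abs_zero]
    exact inf_eq_right.2 (abs_nonneg _)
  obtain ⟨R, hR⟩ := hJ.complete _ hne ⟨_, hub⟩
  exact ⟨R, hR, lt_of_le_of_lt (hR.2 hub) hstrict⟩

end Pool.Agent.Results.MP_78978c_an.JoinLarger
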